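import Mathlib

namespace Pool.Agent.Results.MP_9feecb_co.Yes

open Finset Equiv Function
open scoped Nat

/-- The cyclic arrangement `v` is frustrated: an odd number of cyclically consecutive pairs
are edges. -/
def Frustrated {n k : ℕ} (G : SimpleGraph (Fin n)) (v : Fin k → Fin n) : Prop :=
  Odd {i | G.Adj (v i) (v (finRotate k i))}.ncard

/-- `f_k(G)`: number of frustrated `k`-cycles (as ordered sequences of distinct vertices). -/
noncomputable def fk {n : ℕ} (k : ℕ) (G : SimpleGraph (Fin n)) : ℕ :=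
  {v : Fin k → Fin n | Injective v ∧ Frustrated G v}.ncard

/-- The star with centre `c` and leaves `L`, all other vertices isolated. -/
def star {n : ℕ} (c : Fin n) (L : Finset (Fin n)) : SimpleGraph (Fin n) :=
  SimpleGraph.fromRel fun x y => x = c ∧ y ∈ L

/-- The complete bipartite graph with parts `A` and its complement. -/
def bip {n : ℕ} (A : Set (Fin n)) : SimpleGraph (Fin n) :=
  SimpleGraph.fromRel fun x y => x ∈ A ∧ y ∉ A

/-- `G` and `H` differ in the adjacency of at most `t` pairs. -/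
def Within {n : ℕ} (t : ℕ) (G H : SimpleGraph (Fin n)) : Prop :=
  (symmDiff G.edgeSet H.edgeSet).ncard ≤ t

open Classical

variable {n j r : ℕ}

/-! ### Counting permutations -/

lemma shift (P Q : Perm (Fin n) → Prop) [DecidablePred P] [DecidablePred Q] (τ : Perm (Fin n))
    (h : ∀ p, P p ↔ Q (τ * p)) : #{p | P p} = #{p | Q p} :=
  card_bijective (fun p => τ * p) (Group.mulLeft_bijective τ) (by simpa using h)

lemma ext_pair {u u' : Fin r → Fin n} (hu : Injective u) (hu' : Injective u') :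
    ∃ τ : Perm (Fin n), ∀ a, τ (u a) = u' a := Perm.exists_extending_pair u u' hu hu'

lemma cnt {u u' : Fin r → Fin n} (hu : Injective u) (hu' : Injective u') :
    #{p : Perm (Fin n) | p ∘ u = u'} = (n - r)! := by
  have hr : r ≤ n := by simpa using Fintype.card_le_of_injective u hu
  have h1 : ∀ e : Fin r ↪ Fin n, #{p : Perm (Fin n) | p ∘ u = e} =
      #{p : Perm (Fin n) | p ∘ u = u'} := fun e => by
    obtain ⟨τ, hτ⟩ := ext_pair e.injective hu'
    refine shift _ _ τ fun p => ?_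
    simp only [funext_iff, comp_apply, Perm.mul_apply, ← hτ, τ.injective.eq_iff]
  have h2 := card_eq_sum_card_fiberwise (s := (univ : Finset (Perm (Fin n))))
    (t := (univ : Finset (Fin r ↪ Fin n))) (f := fun p => ⟨p ∘ u, p.injective.comp hu⟩)
    (fun _ _ => mem_univ _)
  have h3 : ∀ e : Fin r ↪ Fin n, #{p : Perm (Fin n) |
      (⟨p ∘ u, p.injective.comp hu⟩ : Fin r ↪ Fin n) = e} = #{p : Perm (Fin n) | p ∘ u = u'} :=
    fun e => by
      rw [← h1 e]; congr 1; ext p; simp [Embedding.ext_iff, funext_iff]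
  simp only [h3, sum_const, card_univ, Fintype.card_perm, Fintype.card_fin,
    Fintype.card_embedding_eq, smul_eq_mul] at h2
  rw [← Nat.factorial_mul_descFactorial hr, mul_comm] at h2
  exact (Nat.eq_of_mul_eq_mul_left (Nat.descFactorial_pos.2 hr) h2).symm

lemma cnt_le {k : ℕ} (w : Fin k → Fin n) {u : Fin r → Fin n} (hu : Injective u) :
    #{p : Perm (Fin n) | ∀ a, ∃ i, p (w i) = u a} ≤ k ^ r * (n - r)! := by
  calc _ ≤ #((univ : Finset (Fin r → Fin k)).biUnion
        fun ι => {p : Perm (Fin n) | p ∘ (w ∘ ι) = u}) := by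
        refine card_le_card fun p hp => ?_
        simp only [mem_filter, mem_univ, true_and, mem_biUnion] at hp ⊢
        choose ι hι using hp
        exact ⟨ι, funext hι⟩
    _ ≤ ∑ _ι : Fin r → Fin k, (n - r)! := by
        refine card_biUnion_le.trans (sum_le_sum fun ι _ => ?_)
        by_cases h : Injective (w ∘ ι)
        · exact (cnt h hu).le
        · rw [card_eq_zero.2 (filter_eq_empty_iff.2 fun p _ e => h ?_)]
          · exact Nat.zero_le _
          · rw [← e] at hu; exact hu.of_comp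
    _ = _ := by simp

noncomputable def g {k : ℕ} (G : SimpleGraph (Fin n)) (w : Fin k → Fin n) : ℕ :=
  #{p : Perm (Fin n) | Frustrated G (p ∘ w)}

lemma g_eq {k : ℕ} (G : SimpleGraph (Fin n)) {w : Fin k → Fin n} (hw : Injective w) :
    g G w = fk k G * (n - k)! := by
  have h := card_eq_sum_card_fiberwise (s := ({p | Frustrated G (p ∘ w)} : Finset (Perm (Fin n))))
    (t := ({v | Injective v ∧ Frustrated G v} : Finset (Fin k → Fin n))) 
    (f := fun p : Perm (Fin n) => p ∘ w) (fun p hp => by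
      simp only [coe_filter, mem_univ, true_and, Set.mem_setOf_eq] at hp ⊢
      exact ⟨p.injective.comp hw, hp⟩)
  rw [g, h, fk, Set.ncard_eq_toFinset_card', Set.toFinset_setOf, ← smul_eq_mul, ← sum_const]
  refine sum_congr rfl fun v hv => ?_
  rw [mem_filter] at hv
  rw [← cnt hw hv.2.1]
  congr 1; ext p
  simp only [mem_filter, mem_univ, true_and, and_iff_right_iff_imp]
  intro e; rw [e]; exact hv.2.2

/-! ### Edges on a cycle -/

def On (v : Fin (j + 3) → Fin n) (q : Sym2 (Fin n)) : Prop := ∃ i, q = s(v i, v (i + 1))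

lemma two_ne (i : Fin (j + 3)) : i + 1 + 1 ≠ i := by
  rw [add_assoc, Ne, add_eq_left]
  intro h
  have := congrArg Fin.val h
  simp [Fin.val_add, Nat.mod_eq_of_lt] at this

lemma fr_iff (G : SimpleGraph (Fin n)) (v : Fin (j + 3) → Fin n) :
    Frustrated G v ↔ Odd #{i | G.Adj (v i) (v (i + 1))} := by
  rw [Frustrated, Set.ncard_eq_toFinset_card', Set.toFinset_setOf]
  simp only [finRotate_succ_apply]

lemma card_on (G : SimpleGraph (Fin n)) {v : Fin (j + 3) → Fin n} (hv : Injective v) :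
    #{i | G.Adj (v i) (v (i + 1))} = #{q ∈ G.edgeFinset | On v q} := by
  refine card_bij (fun i _ => s(v i, v (i + 1))) (fun i hi => ?_) (fun i _ i' _ h => ?_)
    (fun q hq => ?_)
  · simp only [mem_filter, mem_univ, true_and, SimpleGraph.mem_edgeFinset,
      SimpleGraph.mem_edgeSet] at hi ⊢
    exact ⟨hi, i, rfl⟩
  · rcases Sym2.eq_iff.1 h with ⟨h, -⟩ | ⟨h, h'⟩
    · exact hv h
    · have := hv h
      have := hv h'
      exact absurd (by simp_all) (two_ne i)
  · simp only [mem_filter, SimpleGraph.mem_edgeFinset] at hq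
    obtain ⟨h, i, rfl⟩ := hq
    exact ⟨i, by simpa using h, rfl⟩

noncomputable def N (w : Fin (j + 3) → Fin n) (q q' : Sym2 (Fin n)) : ℕ :=
  #{p : Perm (Fin n) | On (p ∘ w) q ∧ On (p ∘ w) q'}

lemma N_map (w : Fin (j + 3) → Fin n) (τ : Perm (Fin n)) (q q' : Sym2 (Fin n)) :
    N w q q' = N w (q.map τ) (q'.map τ) := by
  have : ∀ (p : Perm (Fin n)) (q : Sym2 (Fin n)),
      On (p ∘ w) q ↔ On (⇑(τ * p) ∘ w) (q.map τ) := fun p q =>
    exists_congr fun i => by
      rw [← (Sym2.map.injective τ.injective).eq_iff]; rfl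
  exact shift _ _ τ fun p => and_congr (this p q) (this p q')

noncomputable def N1 (w : Fin (j + 3) → Fin n) : ℕ := N w s(w 0, w 1) s(w 0, w 1)
noncomputable def N2 (w : Fin (j + 3) → Fin n) : ℕ := N w s(w 1, w 0) s(w 1, w 2)

lemma inj2 {x y : Fin n} (h : x ≠ y) : Injective ![x, y] := by
  intro a b; fin_cases a <;> fin_cases b <;> simp [h, h.symm]

lemma inj3 {x y z : Fin n} (h : x ≠ y) (h1 : x ≠ z) (h2 : y ≠ z) : Injective ![x, y, z] := by
  intro a b; fin_cases a <;> fin_cases b <;> simp [h, h.symm, h1, h1.symm, h2, h2.symm]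

lemma inj4 {x y z u : Fin n} (h : x ≠ y) (h1 : x ≠ z) (h2 : y ≠ z) (h3 : x ≠ u) (h4 : y ≠ u)
    (h5 : z ≠ u) : Injective ![x, y, z, u] := by
  intro a b
  fin_cases a <;> fin_cases b <;>
    simp [h, h.symm, h1, h1.symm, h2, h2.symm, h3, h3.symm, h4, h4.symm, h5, h5.symm]

lemma on_mem {v : Fin (j + 3) → Fin n} {x y : Fin n} (h : On v s(x, y)) :
    (∃ i, v i = x) ∧ ∃ i, v i = y := by
  obtain ⟨i, h⟩ := h
  rcases Sym2.eq_iff.1 h with ⟨h, h'⟩ | ⟨h, h'⟩ <;> exact ⟨⟨_, h.symm⟩, _, h'.symm⟩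

section
variable {w : Fin (j + 3) → Fin n} (hw : Injective w)
include hw

lemma w01 : w 0 ≠ w 1 := fun h => by simpa using hw h
lemma w02 : w 0 ≠ w 2 := fun h => by
  have := congrArg Fin.val (hw h); simp [Nat.mod_eq_of_lt] at this
lemma w12 : w 1 ≠ w 2 := fun h => by
  have := congrArg Fin.val (hw h); simp [Nat.mod_eq_of_lt] at this

lemma N_diag {x y : Fin n} (h : x ≠ y) : N w s(x, y) s(x, y) = N1 w := by
  obtain ⟨τ, hτ⟩ := ext_pair (inj2 h) (inj2 (w01 hw))
  have h0 := hτ 0
  have h1 := hτ 1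
  simp only [Matrix.cons_val_zero, Matrix.cons_val_one] at h0 h1
  rw [N_map w τ, Sym2.map_pair_eq, h0, h1, N1]

lemma N_adj {x y z : Fin n} (h : x ≠ y) (h1 : x ≠ z) (h2 : y ≠ z) :
    N w s(y, x) s(y, z) = N2 w := by
  obtain ⟨τ, hτ⟩ := ext_pair (inj3 h h1 h2) (inj3 (w01 hw) (w02 hw) (w12 hw))
  have h0 := hτ 0
  have h1 := hτ 1
  have h2 := hτ 2
  simp only [Matrix.cons_val_zero, Matrix.cons_val_one, Matrix.cons_val] at h0 h1 h2
  rw [N_map w τ, Sym2.map_pair_eq, Sym2.map_pair_eq, h0, h1, h2, N2]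

lemma N1_ge : (n - 2)! ≤ N1 w := by
  rw [← cnt (inj2 (w01 hw)) (inj2 (w01 hw))]
  refine card_le_card fun p hp => ?_
  simp only [mem_filter, mem_univ, true_and, and_self] at hp ⊢
  have h0 := congrFun hp 0
  have h1 := congrFun hp 1
  simp only [comp_apply, Matrix.cons_val_zero, Matrix.cons_val_one] at h0 h1
  exact ⟨0, by simp [h0, h1]⟩

lemma N2_ge : (n - 3)! ≤ N2 w := by
  rw [← cnt (inj3 (w01 hw) (w02 hw) (w12 hw)) (inj3 (w01 hw) (w02 hw) (w12 hw))]
  refine card_le_card fun p hp => ?_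
  simp only [mem_filter, mem_univ, true_and] at hp ⊢
  have h0 := congrFun hp 0
  have h1 := congrFun hp 1
  have h2 := congrFun hp 2
  simp only [comp_apply, Matrix.cons_val_zero, Matrix.cons_val_one, Matrix.cons_val] at h0 h1 h2
  have e : (1 + 1 : Fin (j + 3)) = 2 := rfl
  exact ⟨⟨0, by simp [h0, h1]⟩, 1, by rw [e]; simp [h1, h2]⟩

lemma N1_le : N1 w ≤ (j + 3) ^ 2 * (n - 2)! := by
  refine le_trans (card_le_card fun p hp => ?_) (cnt_le w (inj2 (w01 hw)))
  simp only [mem_filter, mem_univ, true_and] at hp ⊢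
  intro a
  fin_cases a
  exacts [(on_mem hp.1).1, (on_mem hp.1).2]

lemma N2_le : N2 w ≤ (j + 3) ^ 3 * (n - 3)! := by
  refine le_trans (card_le_card fun p hp => ?_) (cnt_le w (inj3 (w01 hw) (w02 hw) (w12 hw)))
  simp only [mem_filter, mem_univ, true_and] at hp ⊢
  intro a
  fin_cases a
  exacts [(on_mem hp.1).2, (on_mem hp.1).1, (on_mem hp.2).2]

lemma N_le (hn : (j + 3) ^ 4 + 3 ≤ n) {q q' : Sym2 (Fin n)} (hq : ¬ q.IsDiag) (hq' : ¬ q'.IsDiag)
    (hne : q ≠ q') : N w q q' ≤ N2 w := by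
  induction q with | _ x y
  induction q' with | _ z u
  simp only [Sym2.mk_isDiag_iff] at hq hq'
  by_cases h1 : x = z
  · subst h1
    exact (N_adj hw (Ne.symm hq) (fun e => hne (by rw [e])) hq').le
  by_cases h2 : x = u
  · subst h2
    rw [Sym2.eq_swap (a := z)]
    exact (N_adj hw (Ne.symm hq) (fun e => hne (by rw [e, Sym2.eq_swap])) h1).le
  by_cases h3 : y = z
  · subst h3
    rw [Sym2.eq_swap (a := x)]
    exact (N_adj hw hq h2 hq').le
  by_cases h4 : y = u
  · subst h4
    rw [Sym2.eq_swap (a := x), Sym2.eq_swap (a := z)]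
    exact (N_adj hw hq h1 h3).le
  refine le_trans ?_ (N2_ge hw)
  refine le_trans (card_le_card fun p hp => ?_) ((cnt_le w (inj4 hq h1 h3 h2 h4 hq')).trans ?_)
  · simp only [mem_filter, mem_univ, true_and] at hp ⊢
    intro a
    fin_cases a
    exacts [(on_mem hp.1).1, (on_mem hp.1).2, (on_mem hp.2).1, (on_mem hp.2).2]
  · have h0 : 0 < (j + 3) ^ 4 := by positivity
    obtain ⟨m, rfl⟩ : ∃ m, n = m + 4 := ⟨n - 4, by omega⟩
    rw [show m + 4 - 3 = m + 1 by omega, Nat.factorial_succ, Nat.add_sub_cancel]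
    exact Nat.mul_le_mul_right _ (show (j + 3) ^ 4 ≤ m + 1 by omega)

lemma sumJ (D : SimpleGraph (Fin n)) :
    ∑ p : Perm (Fin n), #{q ∈ D.edgeFinset | On (p ∘ w) q} = #D.edgeFinset * N1 w := by
  simp only [card_filter]
  rw [sum_comm, ← smul_eq_mul, ← sum_const]
  refine sum_congr rfl fun q hq => ?_
  induction q with | _ x y
  rw [← N_diag hw (D.ne_of_adj (by simpa using hq)), N, card_filter]
  simp

omit hw in
lemma sumJJ (D : SimpleGraph (Fin n)) :
    ∑ p : Perm (Fin n), #{q ∈ D.edgeFinset | On (p ∘ w) q} ^ 2 =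
      ∑ q ∈ D.edgeFinset, ∑ q' ∈ D.edgeFinset, N w q q' := by
  simp only [sq, card_filter, sum_mul_sum, N]
  rw [sum_comm]
  refine sum_congr rfl fun q _ => ?_
  rw [sum_comm]
  refine sum_congr rfl fun q' _ => sum_congr rfl fun p _ => ?_
  split_ifs <;> simp_all

lemma g_sum (D : SimpleGraph (Fin n)) :
    g D w = ∑ p : Perm (Fin n), if Odd #{q ∈ D.edgeFinset | On (p ∘ w) q} then 1 else 0 := by
  rw [g, card_filter]
  refine sum_congr rfl fun p _ => ?_
  simp only [fr_iff, card_on D (p.injective.comp hw)]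

lemma g_le (D : SimpleGraph (Fin n)) : g D w ≤ #D.edgeFinset * N1 w := by
  rw [g_sum hw, ← sumJ hw]
  refine sum_le_sum fun p _ => ?_
  split_ifs with h
  exacts [h.pos, Nat.zero_le _]

lemma g_ge (hn : (j + 3) ^ 4 + 3 ≤ n) (D : SimpleGraph (Fin n)) :
    #D.edgeFinset * N1 w ≤ g D w + #D.edgeFinset * ((#D.edgeFinset - 1) * N2 w) := by
  have h1 : ∑ q ∈ D.edgeFinset, ∑ q' ∈ D.edgeFinset, N w q q' ≤
      #D.edgeFinset * (N1 w + (#D.edgeFinset - 1) * N2 w) := by
    rw [← smul_eq_mul]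
    refine sum_le_card_nsmul _ _ _ fun q hq => ?_
    rw [← add_sum_erase _ _ hq, ← card_erase_of_mem hq, ← smul_eq_mul]
    refine add_le_add ?_ (sum_le_card_nsmul _ _ _ fun q' hq' => N_le hw hn
      (D.not_isDiag_of_mem_edgeFinset hq)
      (D.not_isDiag_of_mem_edgeFinset (mem_of_mem_erase hq')) (ne_of_mem_erase hq').symm)
    induction q with | _ x y
    exact (N_diag hw (D.ne_of_adj (by simpa using hq))).le
  have h2 : 2 * (#D.edgeFinset * N1 w) ≤
      g D w + ∑ q ∈ D.edgeFinset, ∑ q' ∈ D.edgeFinset, N w q q' := by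
    rw [g_sum hw, ← sumJJ, ← sumJ hw, mul_sum, ← sum_add_distrib]
    refine sum_le_sum fun p _ => ?_
    generalize #{q ∈ D.edgeFinset | On (p ∘ w) q} = J
    rcases J with _ | _ | J
    · simp
    · simp
    · nlinarith [Nat.zero_le (if Odd (J + 1 + 1) then 1 else 0)]
  rw [mul_add] at h1
  omega

lemma star_le {c : Fin n} {L : Finset (Fin n)} (hc : c ∉ L) :
    g (star c L) w + #L * ((#L - 1) * N2 w) ≤ #L * N1 w := by
  have hE : (star c L).edgeFinset = L.image fun y => s(c, y) := by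
    ext q
    induction q with | _ x y
    rw [SimpleGraph.mem_edgeFinset]
    simp only [SimpleGraph.mem_edgeSet, star, SimpleGraph.fromRel_adj, mem_image, Sym2.eq_iff]
    constructor
    · rintro ⟨-, ⟨rfl, h⟩ | ⟨rfl, h⟩⟩
      exacts [⟨y, h, Or.inl ⟨rfl, rfl⟩⟩, ⟨x, h, Or.inr ⟨rfl, rfl⟩⟩]
    · rintro ⟨z, h, ⟨rfl, rfl⟩ | ⟨rfl, rfl⟩⟩
      exacts [⟨fun e => hc (e ▸ h), Or.inl ⟨rfl, h⟩⟩, ⟨fun e => hc (e ▸ h), Or.inr ⟨rfl, h⟩⟩]
  have hi : Injective fun y => s(c, y) := fun y z h => Sym2.congr_right.1 h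
  have hm : #(star c L).edgeFinset = #L := by rw [hE, card_image_of_injective _ hi]
  have h1 : #L * (N1 w + (#L - 1) * N2 w) =
      ∑ q ∈ (star c L).edgeFinset, ∑ q' ∈ (star c L).edgeFinset, N w q q' := by
    rw [hE, sum_image fun _ _ _ _ h => hi h, ← smul_eq_mul, ← sum_const]
    refine sum_congr rfl fun y hy => ?_
    have hy' : c ≠ y := fun e => hc (e ▸ hy)
    rw [sum_image fun _ _ _ _ h => hi h, ← add_sum_erase _ _ hy, ← card_erase_of_mem hy,
      ← smul_eq_mul, N_diag hw hy', ← sum_const]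
    congr 1
    refine sum_congr rfl fun z hz => (N_adj hw hy'.symm (ne_of_mem_erase hz).symm ?_).symm
    exact fun e => hc (e ▸ mem_of_mem_erase hz)
  have h2 : g (star c L) w + ∑ q ∈ (star c L).edgeFinset, ∑ q' ∈ (star c L).edgeFinset,
      N w q q' ≤ 2 * (#(star c L).edgeFinset * N1 w) := by
    rw [g_sum hw, ← sumJJ, ← sumJ hw, mul_sum, ← sum_add_distrib]
    refine sum_le_sum fun p _ => ?_
    have hv := p.injective.comp hw
    have : #{q ∈ (star c L).edgeFinset | On (p ∘ w) q} ≤ 2 := by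
      rw [← card_on _ hv]
      calc _ ≤ #((univ.filter fun i => (p ∘ w) i = c) ∪ univ.filter fun i => (p ∘ w) (i + 1) = c) := by
            refine card_le_card fun i hi => ?_
            simp only [mem_filter, mem_univ, true_and, star, SimpleGraph.fromRel_adj,
              mem_union] at hi ⊢
            exact hi.2.imp And.left And.left
        _ ≤ 1 + 1 := (card_union_le _ _).trans (add_le_add
            (card_le_one.2 fun a ha b hb => hv ((mem_filter.1 ha).2.trans (mem_filter.1 hb).2.symm))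
            (card_le_one.2 fun a ha b hb => add_right_cancel
              (hv ((mem_filter.1 ha).2.trans (mem_filter.1 hb).2.symm))))
    generalize #{q ∈ (star c L).edgeFinset | On (p ∘ w) q} = J at this
    interval_cases J <;> simp +decide
  rw [mul_add] at h1
  rw [hm] at h2
  omega

end

/-! ### Structure of graphs with few frustrated cycles -/

lemma z2 (a : ZMod 2) : a = 0 ∨ a = 1 := by revert a; decide

lemma const (c : Fin n → ZMod 2) (R : Finset (Fin n)) (δ : ZMod 2) (B : ℕ)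
    (T : Finset (Fin n × Fin n)) (hT : #T ≤ B) (hR : 2 * B + 3 ≤ #R)
    (h : ∀ x ∈ R, ∀ y ∈ R, x ≠ y → (x, y) ∉ T → c x + c y = δ) :
    δ = 0 ∧ ∃ γ, ∀ x ∈ R, c x = γ := by
  obtain ⟨γ, hγ⟩ : ∃ γ, B + 2 ≤ #{x ∈ R | c x = γ} := by
    have := card_filter_add_card_filter_not (s := R) (fun x => c x = 0)
    have e : #{x ∈ R | ¬ c x = 0} = #{x ∈ R | c x = 1} := by
      congr 1; ext x; rcases z2 (c x) with h | h <;> simp [h]
    by_cases h0 : B + 2 ≤ #{x ∈ R | c x = 0}
    exacts [⟨0, h0⟩, ⟨1, by omega⟩]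
  have key : ∀ x ∈ R, c x + γ = δ := fun x hx => by
    by_contra hne
    have : #(({y ∈ R | c y = γ} : Finset _).erase x) ≤ #T := by
      refine card_le_card_of_injOn (fun y => (x, y)) (fun y hy => ?_) fun y _ z _ e => by
        simpa using e
      simp only [coe_erase, coe_filter, Set.mem_diff, Set.mem_setOf_eq, Set.mem_singleton_iff] at hy
      by_contra hn
      exact hne (hy.1.2 ▸ h x hx y hy.1.1 (Ne.symm hy.2) hn)
    have := pred_card_le_card_erase (s := ({y ∈ R | c y = γ} : Finset _)) (a := x)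
    omega
  obtain ⟨x, hx⟩ := card_pos.1 (show 0 < #{x ∈ R | c x = γ} by omega)
  have h0 : δ = 0 := by
    rw [← key x (mem_filter.1 hx).1, (mem_filter.1 hx).2, CharTwo.add_self_eq_zero]
  exact ⟨h0, γ, fun x hx => by simpa [h0, CharTwo.add_eq_zero] using key x hx⟩

lemma struct1 (e : Fin n → Fin n → ZMod 2) (he : ∀ x y, e x y = e y x) (P : Finset (Fin n))
    (a b : Fin n → ZMod 2) (B : ℕ) (T : Finset (Fin n × Fin n)) (hT : #T ≤ B)
    (hn : 4 * B + 3 + #P ≤ n) (h : ∀ x ∉ P, ∀ y ∉ P, x ≠ y → (x, y) ∉ T → e x y = a x + b y) :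
    ∃ ε, ∀ x ∉ P, ∀ y ∉ P, x ≠ y → (x, y) ∉ T → e x y = a x + a y + ε := by
  obtain ⟨-, γ, hγ⟩ := const (fun x => a x + b x) Pᶜ 0 (2 * B) (T ∪ T.image Prod.swap)
    ((card_union_le _ _).trans (by have := card_image_le (s := T) (f := Prod.swap); omega))
    (by rw [card_compl, Fintype.card_fin]; omega) fun x hx y hy hxy hm => by
      simp only [mem_union, mem_image, not_or, not_exists, not_and, mem_compl] at hm hx hy
      have h1 := h x hx y hy hxy hm.1
      have h2 := h y hy x hx hxy.symm fun h' => hm.2 _ h' rfl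
      rw [he, h2] at h1
      generalize a x = p, a y = q, b x = r, b y = s at h1
      revert p q r s; decide
  refine ⟨γ, fun x hx y hy hxy hm => ?_⟩
  rw [h x hx y hy hxy hm, ← hγ y (mem_compl.2 hy)]
  generalize a x = p, a y = q, b y = s
  revert p q s; decide

lemma struct2 (e : Fin n → Fin n → ZMod 2) (P P' : Finset (Fin n)) (hP : Disjoint P P')
    (a a' : Fin n → ZMod 2) (ε ε' : ZMod 2) (B : ℕ) (T : Finset (Fin n × Fin n)) (hT : #T ≤ B)
    (hn : 2 * B + 3 + #P + #P' ≤ n)
    (h : ∀ x ∉ P, ∀ y ∉ P, x ≠ y → (x, y) ∉ T → e x y = a x + a y + ε)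
    (h' : ∀ x ∉ P', ∀ y ∉ P', x ≠ y → (x, y) ∉ T → e x y = a' x + a' y + ε') :
    ∃ (b : Fin n → ZMod 2) (T' : Finset (Fin n × Fin n)), #T' ≤ B + 2 * (#P * #P') ∧
      ∀ x y, x ≠ y → (x, y) ∉ T' → e x y = b x + b y + ε := by
  obtain ⟨h0, γ, hγ⟩ := const (fun x => a x + a' x) (P ∪ P')ᶜ (ε + ε') B T hT
    (by rw [card_compl, Fintype.card_fin]; have := card_union_le P P'; omega)
    fun x hx y hy hxy hm => by
      simp only [mem_union, not_or, mem_compl] at hx hy
      have h1 := h x hx.1 y hy.1 hxy hm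
      rw [h' x hx.2 y hy.2 hxy hm] at h1
      generalize a x = p, a y = q, a' x = r, a' y = s at h1
      clear * - h1
      revert p q r s ε ε'; decide
  refine ⟨fun x => if x ∈ P then a' x + γ else a x, T ∪ (P ×ˢ P' ∪ P' ×ˢ P), ?_,
    fun x y hxy hm => ?_⟩
  · refine (card_union_le _ _).trans (add_le_add hT ((card_union_le _ _).trans ?_))
    rw [card_product, card_product, mul_comm #P']; omega
  · simp only [mem_union, mem_product, not_or, not_and] at hm
    have hb : ∀ z ∉ P', (if z ∈ P then a' z + γ else a z) = a' z + γ := fun z hz => by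
      split_ifs with h1
      · rfl
      · rw [← hγ z (by simp [h1, hz])]
        generalize a z = p, a' z = q
        revert p q; decide
    beta_reduce
    by_cases h1 : x ∉ P ∧ y ∉ P
    · rw [if_neg h1.1, if_neg h1.2, h x h1.1 y h1.2 hxy hm.1]
    · have hx : x ∉ P' := fun hx => h1 ⟨fun h => disjoint_left.1 hP h hx, hm.2.2 hx⟩
      have hy : y ∉ P' := fun hy => h1 ⟨fun h => hm.2.1 h hy, fun h => disjoint_left.1 hP h hy⟩
      rw [hb x hx, hb y hy, h' x hx y hy hxy hm.1, CharTwo.add_eq_zero.1 h0]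
      generalize a' x = p, a' y = q
      clear * -
      revert p q γ ε'; decide

noncomputable def ee (G : SimpleGraph (Fin n)) (x y : Fin n) : ZMod 2 := if G.Adj x y then 1 else 0

lemma fr_sum (G : SimpleGraph (Fin n)) (v : Fin (j + 3) → Fin n) :
    Frustrated G v ↔ ∑ i, ee G (v i) (v (i + 1)) = 1 := by
  rw [fr_iff, ← ZMod.natCast_eq_one_iff_odd, card_filter]
  simp [ee]

def upd (w : Fin (j + 3) → Fin n) (x y : Fin n) : Fin (j + 3) → Fin n :=
  update (update w 0 x) 1 y

lemma upd_inj {w : Fin (j + 3) → Fin n} (hw : Injective w) {x y : Fin n} (hx : x ∉ univ.image w)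
    (hy : y ∉ univ.image w) (hxy : x ≠ y) : Injective (upd w x y) := by
  simp only [mem_image, mem_univ, true_and, not_exists] at hx hy
  intro a b
  simp only [upd, update_apply]
  split_ifs <;> intro h <;>
    first | exact hw h | exact absurd h (hx _) | exact absurd h (hy _) | exact absurd h.symm (hx _) | exact absurd h.symm (hy _) | simp_all

lemma upd_sum (e : Fin n → Fin n → ZMod 2) (w : Fin (j + 3) → Fin n) :
    ∃ a b : Fin n → ZMod 2, ∀ x y,
      ∑ i, e (upd w x y i) (upd w x y (i + 1)) = e x y + a x + b y := by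
  refine ⟨fun x => e (w (Fin.last _)) x + ∑ i : Fin j, e (w i.castSucc.succ.succ)
    (w (i.castSucc.succ.succ + 1)), fun y => e y (w 2), fun x y => ?_⟩
  have h2 : ∀ i : Fin (j + 1), upd w x y i.succ.succ = w i.succ.succ := fun i => by
    rw [upd, update_of_ne (Fin.succ_succ_ne_one i), update_of_ne (Fin.succ_ne_zero _)]
  have h0 : upd w x y 0 = x := by simp [upd]
  have h1 : upd w x y 1 = y := by simp [upd]
  have h3 : ∀ i : Fin j, i.castSucc.succ.succ + 1 = i.succ.succ.succ := fun i => by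
    rw [Fin.succ_castSucc, Fin.succ_castSucc, Fin.coeSucc_eq_succ]
  rw [Fin.sum_univ_succ, Fin.sum_univ_succ, Fin.sum_univ_castSucc]
  simp only [h3, h2]
  have e1 : (Fin.succ (0 : Fin (j + 2)) + 1 : Fin (j + 3)) = (0 : Fin (j + 1)).succ.succ := rfl
  have e2 : (Fin.last j).succ.succ = Fin.last (j + 2) := rfl
  rw [e1, h2, e2, Fin.last_add_one, zero_add, Fin.succ_zero_eq_one, h0, h1]
  have e3 : ((0 : Fin (j + 1)).succ.succ : Fin (j + 3)) = 2 := rfl
  rw [e3]; ring

noncomputable def bad (G : SimpleGraph (Fin n)) (w : Fin (j + 3) → Fin n) (p : Perm (Fin n)) :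
    Finset (Fin n × Fin n) :=
  {z | (z.1 ∉ univ.image w ∧ z.2 ∉ univ.image w ∧ z.1 ≠ z.2) ∧ Frustrated G (p ∘ upd w z.1 z.2)}

lemma sum_bad (G : SimpleGraph (Fin n)) {w : Fin (j + 3) → Fin n} (hw : Injective w) :
    ∑ p, #(bad G w p) ≤ n * n * g G w := by
  simp only [bad, card_filter]
  rw [sum_comm]
  refine (sum_le_card_nsmul _ _ (g G w) fun z _ => ?_).trans (by simp)
  by_cases h : z.1 ∉ univ.image w ∧ z.2 ∉ univ.image w ∧ z.1 ≠ z.2
  · rw [g_eq G hw, ← g_eq G (upd_inj hw h.1 h.2.1 h.2.2), g, card_filter]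
    exact sum_le_sum fun p _ => by split_ifs <;> simp_all
  · simp only [h, false_and, if_false, sum_const_zero, Nat.zero_le]

lemma bad_struct (G : SimpleGraph (Fin n)) (w : Fin (j + 3) → Fin n) (p : Perm (Fin n)) (B : ℕ)
    (T : Finset (Fin n × Fin n)) (hT : #T ≤ B) (hb : bad G w p ⊆ T) (hn : 4 * B + 3 + (j + 3) ≤ n) :
    ∃ (a : Fin n → ZMod 2) (ε : ZMod 2), ∀ x ∉ univ.image w, ∀ y ∉ univ.image w, x ≠ y →
      (x, y) ∉ T → ee G (p x) (p y) = a x + a y + ε := by
  obtain ⟨a, b, hab⟩ := upd_sum (fun x y => ee G (p x) (p y)) w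
  refine ⟨a, struct1 (fun x y => ee G (p x) (p y)) (fun x y => by simp only [ee, G.adj_comm]) _
    a b B T hT ?_ fun x hx y hy hxy hm => ?_⟩
  · have := card_image_le (s := univ) (f := w)
    simp only [card_univ, Fintype.card_fin] at this
    omega
  · have : ¬ Frustrated G (p ∘ upd w x y) := fun h =>
      hm (hb (mem_filter.2 ⟨mem_univ _, ⟨hx, hy, hxy⟩, h⟩))
    rw [fr_sum] at this
    have h := hab x y
    simp only [comp_apply] at this h ⊢
    rw [h] at this
    generalize ee G (p x) (p y) = r, a x = s, b y = t at this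
    revert r s t; decide

lemma structure_thm (G : SimpleGraph (Fin n)) {w w' : Fin (j + 3) → Fin n} (hw : Injective w)
    (hw' : Injective w') (hd : Disjoint (univ.image w) (univ.image w')) (K : ℕ)
    (hg : g G w ≤ K * (n - 2)!) (hn : 16 * K + 3 + 2 * (j + 3) ≤ n) :
    ∃ (a : Fin n → ZMod 2) (ε : ZMod 2) (D : SimpleGraph (Fin n)),
      #D.edgeFinset ≤ 4 * K + 2 * (j + 3) ^ 2 ∧
      ∀ x y, x ≠ y → ee G x y = ee D x y + a x + a y + ε := by
  obtain ⟨p, -, hp⟩ : ∃ p ∈ (univ : Finset (Perm (Fin n))),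
      #(bad G w p) + #(bad G w' p) ≤ 4 * K := by
    refine exists_le_of_sum_le univ_nonempty ?_
    have h1 := sum_bad G hw
    have h2 := sum_bad G hw'
    rw [g_eq G hw', ← g_eq G hw] at h2
    rw [sum_add_distrib, sum_const, card_univ, Fintype.card_perm, Fintype.card_fin, smul_eq_mul]
    obtain ⟨m, rfl⟩ : ∃ m, n = m + 2 := ⟨n - 2, by omega⟩
    rw [Nat.add_sub_cancel] at hg
    rw [Nat.factorial_succ, Nat.factorial_succ]
    have h3 : (m + 2) * (m + 2) * g G w ≤ (m + 2) * (2 * (m + 1)) * (K * m !) := by gcongr; omega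
    nlinarith
  have hT : #(bad G w p ∪ bad G w' p) ≤ 4 * K := (card_union_le _ _).trans hp
  obtain ⟨a, ε, h⟩ := bad_struct G w p _ _ hT subset_union_left (by omega)
  obtain ⟨a', ε', h'⟩ := bad_struct G w' p _ _ hT subset_union_right (by omega)
  have c1 : #(univ.image w) = j + 3 := by rw [card_image_of_injective _ hw]; simp
  have c2 : #(univ.image w') = j + 3 := by rw [card_image_of_injective _ hw']; simp
  obtain ⟨b, T, hT', hb⟩ := struct2 (fun x y => ee G (p x) (p y)) _ _ hd a a' ε ε' _ _ hT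
    (by omega) h h'
  refine ⟨fun x => b (p.symm x), ε, SimpleGraph.fromRel fun x y =>
    ee G x y ≠ b (p.symm x) + b (p.symm y) + ε, ?_, fun x y hxy => ?_⟩
  · rw [c1, c2, ← sq] at hT'
    refine le_trans (card_le_card (t := T.image fun z => s(p z.1, p z.2)) fun q hq => ?_)
      (card_image_le.trans hT')
    induction q with | _ x y
    simp only [SimpleGraph.mem_edgeFinset, SimpleGraph.mem_edgeSet, SimpleGraph.fromRel_adj] at hq
    have key : ∀ x y, x ≠ y → ee G x y ≠ b (p.symm x) + b (p.symm y) + ε →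
        s(x, y) ∈ T.image fun z => s(p z.1, p z.2) := fun x y hxy hne => by
      refine mem_image.2 ⟨(p.symm x, p.symm y), ?_, by simp⟩
      by_contra hm
      exact hne (by simpa using hb _ _ (p.symm.injective.ne hxy) hm)
    rcases hq with ⟨h1, h2 | h2⟩
    · exact key x y h1 h2
    · rw [Sym2.eq_swap]; exact key y x h1.symm h2
  · have : ee G y x = ee G x y := by simp only [ee, G.adj_comm]
    rw [ee.eq_1 (SimpleGraph.fromRel _)]
    simp only [SimpleGraph.fromRel_adj, this, add_comm (b (p.symm y)), or_self, hxy, ne_eq,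
      not_false_eq_true, true_and]
    generalize ee G x y = r, b (p.symm x) = s, b (p.symm y) = t
    clear * -
    split_ifs with h <;> revert r s t ε <;> decide

theorem result (k t : ℕ) (hk : 3 ≤ k) : ∃ n₀, ∀ n ≥ n₀, ∀ (G : SimpleGraph (Fin n)) (c : Fin n)
    (L : Finset (Fin n)), c ∉ L → L.card = t + 1 → fk k G < fk k (star c L) →
    ∃ A : Set (Fin n), Within t G (bip A) ∨ Within t Gᶜ (bip A) := by
  obtain ⟨j, rfl⟩ : ∃ j, k = j + 3 := ⟨k - 3, by omega⟩
  obtain ⟨K, hK⟩ : ∃ K, K = (t + 1) * (j + 3) ^ 2 := ⟨_, rfl⟩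
  obtain ⟨C, hC⟩ : ∃ C, C = 4 * K + 2 * (j + 3) ^ 2 := ⟨_, rfl⟩
  refine ⟨16 * K + 3 + 2 * (j + 3) + (j + 3) ^ 4 + (C + t) * (j + 3) ^ 3 + C * (j + 3) ^ 2,
    fun n hn G c L hc hL hlt => ?_⟩
  let w : Fin (j + 3) → Fin n := fun i => ⟨i, by omega⟩
  let w' : Fin (j + 3) → Fin n := fun i => ⟨j + 3 + i, by omega⟩
  have hw : Injective w := fun a b h => Fin.ext (by simpa [w] using h)
  have hw' : Injective w' := fun a b h => Fin.ext (by simpa [w'] using h)
  have hd : Disjoint (univ.image w) (univ.image w') := by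
    simp only [disjoint_left, mem_image, mem_univ, true_and, not_exists]
    rintro _ ⟨a, rfl⟩ b h
    simp only [w, w', Fin.mk.injEq] at h
    omega
  have hg : g G w < g (star c L) w := by
    rw [g_eq _ hw, g_eq _ hw]
    exact Nat.mul_lt_mul_of_pos_right hlt (Nat.factorial_pos _)
  have hs := star_le hw hc
  rw [hL, Nat.add_sub_cancel] at hs
  have h1 := N1_le hw
  have hg' : g G w < K * (n - 2)! := by
    have : (t + 1) * N1 w ≤ K * (n - 2)! := by rw [hK, mul_assoc]; gcongr
    omega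
  obtain ⟨a, ε, D, hD, h⟩ := structure_thm G hw hw' hd K hg'.le (by omega)
  rw [← hC] at hD
  have hfr : ∀ p : Perm (Fin n), ∑ i, ee G ((p ∘ w) i) ((p ∘ w) (i + 1)) =
      ∑ i, ee D ((p ∘ w) i) ((p ∘ w) (i + 1)) + (j + 3 : ℕ) * ε := fun p => by
    rw [sum_congr rfl fun i _ => h _ _ ((p.injective.comp hw).ne (by simp))]
    simp only [sum_add_distrib, sum_const, card_univ, Fintype.card_fin, nsmul_eq_mul]
    have := Equiv.sum_comp (Equiv.addRight 1) fun i => a ((p ∘ w) i)
    simp only [coe_addRight] at this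
    rw [this, add_assoc (∑ i, ee D _ _), CharTwo.add_self_eq_zero, add_zero]
  have hm : #D.edgeFinset ≤ t := by
    by_contra hm
    obtain ⟨m, hm⟩ : ∃ m, #D.edgeFinset = t + 1 + m := ⟨#D.edgeFinset - (t + 1), by omega⟩
    rcases z2 ((j + 3 : ℕ) * ε) with h0 | h0
    · have e : g G w = g D w := by
        simp only [g, fr_sum, hfr, h0, add_zero]
      have h2 := g_ge hw (by omega) D
      have h3 : (C + t) * N2 w ≤ N1 w := by
        refine le_trans ?_ (N1_ge hw)
        rw [show n - 2 = (n - 3) + 1 by omega, Nat.factorial_succ]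
        refine (Nat.mul_le_mul_left _ (N2_le hw)).trans ?_
        rw [← mul_assoc]
        exact Nat.mul_le_mul_right _ (by omega)
      rw [hm, show t + 1 + m - 1 = t + m by omega] at h2
      have h4 : m * ((t + 1 + m + t) * N2 w) ≤ m * N1 w := by
        refine Nat.mul_le_mul_left _ (le_trans (Nat.mul_le_mul_right _ (by omega)) h3)
      nlinarith
    · have e : g G w + g D w = n ! := by
        have := card_filter_add_card_filter_not (s := (univ : Finset (Perm (Fin n))))
          (fun p => Frustrated G (p ∘ w))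
        rw [card_univ, Fintype.card_perm, Fintype.card_fin] at this
        rw [← this, g, g]
        congr 2; ext p
        simp only [mem_filter, mem_univ, true_and, fr_sum, hfr, h0]
        generalize ∑ i, ee D ((p ∘ w) i) ((p ∘ w) (i + 1)) = r
        revert r; decide
      have h2 : g D w ≤ C * (j + 3) ^ 2 * (n - 2)! := by
        rw [mul_assoc]; exact (g_le hw D).trans (Nat.mul_le_mul hD h1)
      obtain ⟨n', rfl⟩ : ∃ m, n = m + 2 := ⟨n - 2, by omega⟩
      rw [Nat.add_sub_cancel] at h2 hg'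
      rw [Nat.factorial_succ, Nat.factorial_succ] at e
      have h3 : (K + C * (j + 3) ^ 2) * n' ! ≤ (n' + 1 + 1) * ((n' + 1) * n' !) :=
        Nat.mul_le_mul (by omega) (Nat.le_mul_of_pos_left _ (by omega))
      nlinarith
  have hE : D.edgeSet.ncard ≤ t := by
    rwa [← SimpleGraph.coe_edgeFinset, Set.ncard_coe_finset]
  refine ⟨{x | a x = 1}, ?_⟩
  have key : ∀ H : SimpleGraph (Fin n), (∀ x y, x ≠ y → ee H x y = ee D x y + a x + a y) →
      Within t H (bip {x | a x = 1}) := fun H hH => by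
    rw [Within]
    convert hE using 2
    ext q
    induction q with | _ x y
    by_cases hxy : x = y
    · simp [hxy, Set.mem_symmDiff]
    · have := hH x y hxy
      simp only [Set.mem_symmDiff, SimpleGraph.mem_edgeSet, bip, SimpleGraph.fromRel_adj,
        Set.mem_setOf_eq, ee] at this ⊢
      rcases z2 (a x) with h1 | h1 <;> rcases z2 (a y) with h2 | h2 <;>
        by_cases h3 : H.Adj x y <;> by_cases h4 : D.Adj x y <;> simp +decide [*] at this ⊢
  rcases z2 ε with rfl | rfl
  · exact Or.inl (key G fun x y hxy => by rw [h x y hxy, add_zero])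
  · refine Or.inr (key Gᶜ fun x y hxy => ?_)
    have := h x y hxy
    rw [← CharTwo.add_eq_zero, ← sub_eq_iff_eq_add.2 this]
    by_cases h3 : G.Adj x y <;> simp +decide [ee, h3, hxy]

end Pool.Agent.Results.MP_9feecb_co.Yes
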